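import Pool.Agent.H74.GKKEx
import Pool.Agent.H74.GKKStab4

set_option autoImplicit false

namespace Pool.Agent.Results.MP_ba9f40_al.NewtonFails

open Pool.Agent.H74.GKK

/-- A stable GKK τ-matrix violating one of Newton's inequalities. -/
theorem result :
    ∃ (n : ℕ) (A : Matrix (Fin n) (Fin n) ℂ) (j : ℕ),
      IsGKK A ∧ IsTau A ∧ IsStable A ∧ 1 ≤ j ∧ j + 1 ≤ n ∧
      ∃ a b c : ℝ, cj A (j - 1) = (a : ℂ) ∧ cj A j = (b : ℂ) ∧ cj A (j + 1) = (c : ℂ) ∧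
        b ^ 2 < a * c :=
  ⟨4, M4.map (Int.cast : ℤ → ℂ), 2, ⟨M4_P, M4_WSS⟩, M4_tau,
    stable_le4 4 le_rfl _ ⟨M4_P, M4_WSS⟩, by norm_num, by norm_num, 365 / 2, 8050, 362750,
    M4_c1, M4_c2, M4_c3, by norm_num⟩

end Pool.Agent.Results.MP_ba9f40_al.NewtonFails
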